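import Pool.Agent.W802.NUMain

/-!
# Non-uniqueness for the normalized p-Laplace Dirichlet problem, `1 < p < 2`

This disproves Q1 of MP_dcb15c_an: for every `p` with `1 < p < 2` there are a bounded domain of the
plane, a (sign-changing) continuous source `f` and continuous boundary values `g` for which the
Dirichlet problem for the normalized `p`-Laplacian has two distinct viscosity solutions.

Construction.  Put `κ = 2 - p` and look for `u = r ^ 4 * G θ`.  Away from the origin
`Δ_p^N u = r ^ 2 * f θ` with `f = (G'' + 16 G) (1 - κ s) - 12 κ G`,
`s = G' ^ 2 / (16 G ^ 2 + G' ^ 2)`.
If `G > 0` is `2 π / N`-periodic and `f = - f₀ cos (N θ)`, then `v = - r ^ 4 * G (θ + π / N)` solves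
the same equation, as the operator is odd.  Both are viscosity solutions at the origin as well, as
they are `O (r ^ 4)` there.  So `u` and `v + 1` are two solutions in the bounded star-shaped domain
`{u - v < 1}`, with the same boundary values and different values at the origin.  The profile `G` is
found by a shooting argument for large `N`; here `p < 2` is what makes it possible.
-/

namespace Pool.Agent.Results.MP_dcb15c_an.NonUniqueness

open Pool.Agent.W802.NU in
/-- For every `p` with `1 < p < 2`, uniqueness of viscosity solutions fails for the Dirichlet
problem for the normalized `p`-Laplacian with continuous source in bounded planar domains. -/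
theorem result : ∀ p : ℝ, 1 < p → p < 2 → ¬ Uniqueness 2 p := main

end Pool.Agent.Results.MP_dcb15c_an.NonUniqueness
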